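import Mathlib
import Pool.Agent.Work.MP_92f640_nt.Red

/-!
# Q1 is equivalent to a pointwise bound plus nine local conditions

For every real `δ`, the statement of Q1 with this `δ` is equivalent
* to its restriction to the moduli `q ≥ x / 79`, and
* to the conjunction of
  (a) the pointwise lower bound `g(n) ≥ δ n / log² n` for all large even `n = 2 m` for which `m` is
      divisible by `2`, `3`, `5` or `7` (no exceptions), and
  (b) nine explicit finite local conditions on the numbers `2 r k`, where `r` is large and coprime to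
      `210` and `k ≤ 79` is a prime `≥ 11`.
-/

namespace Pool.Agent.Results.MP_92f640_nt.ExactReduction

open Pool.Agent.Work.MP_92f640_nt

/-- `g(n)`: the number of ordered pairs of primes with sum `n`. -/
def goldbachCount (n : ℕ) : ℕ :=
  ((Finset.range (n + 1)).filter (fun p : ℕ => p.Prime ∧ (n - p).Prime)).card

/-- `n` is exceptional for `δ` if `g(n) < δ n / log² n`. -/
def Bad (δ : ℝ) (n : ℕ) : Prop :=
  (goldbachCount n : ℝ) < δ * (n : ℝ) / (Real.log (n : ℝ)) ^ 2

open Classical in
/-- The even multiples `n` of `q` in `(x/2, x]` that are exceptional for `δ`. -/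
noncomputable def exceptions (δ x : ℝ) (q : ℕ) : Finset ℕ :=
  (Finset.Icc 1 ⌊x⌋₊).filter (fun n : ℕ => x / 2 < (n : ℝ) ∧ Even n ∧ q ∣ n ∧ Bad δ n)

/-- The assertion of Q1 for a given `δ`. -/
def FewExceptions (δ : ℝ) : Prop :=
  ∃ x₀ : ℝ, ∀ x : ℝ, x₀ ≤ x → ∀ q : ℕ, 1 ≤ q → (q : ℝ) ≤ x / 4 →
    ((exceptions δ x q).card : ℝ) ≤ x / (8 * (q : ℝ))

/-- The assertion of Q1 for a given `δ`, restricted to the moduli `x / 79 ≤ q ≤ x / 4`. -/
def FewExceptionsLargeModuli (δ : ℝ) : Prop :=
  ∃ x₀ : ℝ, ∀ x : ℝ, x₀ ≤ x → ∀ q : ℕ, x / 79 ≤ (q : ℝ) → (q : ℝ) ≤ x / 4 →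
    ((exceptions δ x q).card : ℝ) ≤ x / (8 * (q : ℝ))

/-- Nine pairs `(K, b)`, each with `K` a finite set of primes and `b` a number. -/
def localConditions : List (Finset ℕ × ℕ) :=
  [({11, 13}, 1),
   ({11, 13, 17, 19}, 2),
   ({13, 17, 19, 23}, 2),
   ({17, 19, 23, 29, 31}, 3),
   ({23, 29, 31, 37, 41, 43}, 5),
   ({29, 31, 37, 41, 43, 47}, 5),
   ({31, 37, 41, 43, 47, 53, 59, 61}, 7),
   ({37, 41, 43, 47, 53, 59, 61, 67, 71}, 8),
   ({41, 43, 47, 53, 59, 61, 67, 71, 73, 79}, 9)]

open Classical in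
/-- The local form: no exceptional `n = 2 m` with `m` large and not coprime to `210`, and for each
large `r` coprime to `210` and each of the nine pairs `(K, b)`, at most `b` of the numbers
`2 r k` with `k ∈ K` are exceptional. -/
def LocalForm (δ : ℝ) : Prop :=
  ∃ n₀ : ℕ, (∀ m : ℕ, n₀ ≤ m → ¬ Nat.Coprime m 210 → ¬ Bad δ (2 * m)) ∧
    ∀ r : ℕ, n₀ ≤ r → Nat.Coprime r 210 → ∀ P ∈ localConditions,
      (P.1.filter (fun k : ℕ => Bad δ (2 * r * k))).card ≤ P.2

theorem localConditions_eq : localConditions = localList := rfl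

/-- Each of the nine conditions comes from some `F ≤ 79`. -/
theorem localConditions_spec : ∀ P ∈ localConditions, ∃ F ∈ Finset.Icc 4 79,
    (∀ k ∈ P.1, F / 2 < k ∧ k ≤ F) ∧ F < 8 * (P.2 + 1) := by
  decide +kernel

theorem mem_exceptions {δ x : ℝ} {q n : ℕ} :
    n ∈ exceptions δ x q ↔ (1 ≤ n ∧ n ≤ ⌊x⌋₊) ∧ x / 2 < (n : ℝ) ∧ Even n ∧ q ∣ n ∧ Bad δ n := by
  classical
  unfold exceptions
  rw [Finset.mem_filter, Finset.mem_Icc]

theorem mem_exceptions_of {δ x : ℝ} {q n : ℕ} (hx : x / 2 < n) (hx2 : (n : ℝ) ≤ x) (h0 : 0 < n)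
    (he : Even n) (hq : q ∣ n) (hb : Bad δ n) : n ∈ exceptions δ x q :=
  mem_exceptions.2 ⟨⟨h0, Nat.le_floor hx2⟩, hx, he, hq, hb⟩

/-- Pointwise part, multiples of `k` where `k = 3, 4, 5, 7`. -/
theorem not_bad_of_mul {δ x₀ : ℝ}
    (h : ∀ x : ℝ, x₀ ≤ x → ∀ q : ℕ, x / 79 ≤ (q : ℝ) → (q : ℝ) ≤ x / 4 →
      ((exceptions δ x q).card : ℝ) ≤ x / (8 * (q : ℝ)))
    {r k : ℕ} (hr : 0 < r) (hk3 : 3 ≤ k) (hk7 : k ≤ 7) (hx : x₀ ≤ 2 * r * k) :
    ¬ Bad δ (2 * r * k) := by
  intro hb
  set M : ℕ := max 4 k with hM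
  have hM4 : 4 ≤ M := le_max_left _ _
  have hMk : k ≤ M := le_max_right _ _
  have hM7 : M ≤ 7 := max_le (by norm_num) hk7
  have hM2 : M < 2 * k := by rcases le_or_gt 4 k with h4 | h4
                             · rw [hM, max_eq_right h4]; omega
                             · rw [hM, max_eq_left h4.le]; omega
  have hrR : (0 : ℝ) < r := by exact_mod_cast hr
  have hM4' : (4 : ℝ) ≤ M := by exact_mod_cast hM4
  have hMk' : (k : ℝ) ≤ M := by exact_mod_cast hMk
  have hM7' : (M : ℝ) ≤ 7 := by exact_mod_cast hM7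
  have hM2' : (M : ℝ) < 2 * k := by exact_mod_cast hM2
  have hk0 : 0 < k := by omega
  have h1 := h ((M : ℝ) * (2 * r)) (by nlinarith) (2 * r) (by push_cast; nlinarith)
    (by push_cast; nlinarith)
  have hmem : (2 * r * k) ∈ exceptions δ ((M : ℝ) * (2 * r)) (2 * r) := by
    refine mem_exceptions_of (by push_cast; nlinarith) (by push_cast; nlinarith) (by positivity)
      ?_ (Dvd.intro _ rfl) hb
    rw [mul_assoc]; exact even_two_mul _
  have hpos : 1 ≤ (exceptions δ ((M : ℝ) * (2 * r)) (2 * r)).card :=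
    Finset.card_pos.2 ⟨_, hmem⟩
  have hpos' : (1 : ℝ) ≤ (exceptions δ ((M : ℝ) * (2 * r)) (2 * r)).card := by exact_mod_cast hpos
  have hval : (M : ℝ) * (2 * r) / (8 * ((2 * r : ℕ) : ℝ)) = M / 8 := by
    push_cast
    field_simp
  rw [hval] at h1
  linarith

/-- Pointwise part, `n = 4 q` with any `q`. -/
theorem not_bad_four {δ x₀ : ℝ}
    (h : ∀ x : ℝ, x₀ ≤ x → ∀ q : ℕ, x / 79 ≤ (q : ℝ) → (q : ℝ) ≤ x / 4 →
      ((exceptions δ x q).card : ℝ) ≤ x / (8 * (q : ℝ)))
    {q : ℕ} (hq : 0 < q) (hx : x₀ ≤ 4 * q) : ¬ Bad δ (4 * q) := by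
  intro hb
  have hqR : (0 : ℝ) < q := by exact_mod_cast hq
  have h1 := h (4 * (q : ℝ)) hx q (by linarith) (by linarith)
  have hmem : (4 * q) ∈ exceptions δ (4 * (q : ℝ)) q := by
    refine mem_exceptions_of (by push_cast; linarith) (by push_cast; linarith) (by positivity)
      ?_ (Dvd.intro_left _ rfl) hb
    rw [show 4 * q = 2 * (2 * q) by ring]; exact even_two_mul _
  have hpos : 1 ≤ (exceptions δ (4 * (q : ℝ)) q).card := Finset.card_pos.2 ⟨_, hmem⟩
  have hpos' : (1 : ℝ) ≤ (exceptions δ (4 * (q : ℝ)) q).card := by exact_mod_cast hpos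
  have hval : 4 * (q : ℝ) / (8 * (q : ℝ)) = 1 / 2 := by
    field_simp
    norm_num
  rw [hval] at h1
  linarith

theorem prime_dvd_of_not_coprime {m : ℕ} (h : ¬ Nat.Coprime m 210) :
    2 ∣ m ∨ 3 ∣ m ∨ 5 ∣ m ∨ 7 ∣ m := by
  obtain ⟨p, hp, hpm, hp2⟩ := Nat.Prime.not_coprime_iff_dvd.1 h
  have h210 : (210 : ℕ) = 2 * (3 * (5 * 7)) := by norm_num
  rw [h210] at hp2
  rcases (Nat.Prime.dvd_mul hp).1 hp2 with h2 | h2
  · have := (Nat.prime_dvd_prime_iff_eq hp Nat.prime_two).1 h2
    subst this; exact Or.inl hpm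
  · rcases (Nat.Prime.dvd_mul hp).1 h2 with h3 | h3
    · have := (Nat.prime_dvd_prime_iff_eq hp Nat.prime_three).1 h3
      subst this; exact Or.inr (Or.inl hpm)
    · rcases (Nat.Prime.dvd_mul hp).1 h3 with h5 | h5
      · have := (Nat.prime_dvd_prime_iff_eq hp Nat.prime_five).1 h5
        subst this; exact Or.inr (Or.inr (Or.inl hpm))
      · have := (Nat.prime_dvd_prime_iff_eq hp (by norm_num : Nat.Prime 7)).1 h5
        subst this; exact Or.inr (Or.inr (Or.inr hpm))

theorem localForm_of_large {δ : ℝ} (h : FewExceptionsLargeModuli δ) : LocalForm δ := by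
  classical
  obtain ⟨x₀, h⟩ := h
  refine ⟨⌈x₀⌉₊ + 1, ?_, ?_⟩
  · intro m hm hcop
    have hm0 : 0 < m := by omega
    have hxm : x₀ ≤ m := by
      have h1 : x₀ ≤ (⌈x₀⌉₊ : ℝ) := Nat.le_ceil x₀
      have h2 : ((⌈x₀⌉₊ + 1 : ℕ) : ℝ) ≤ m := by exact_mod_cast hm
      push_cast at h2
      linarith
    have hmR : (0 : ℝ) < m := by exact_mod_cast hm0
    rcases prime_dvd_of_not_coprime hcop with h2 | h3 | h5 | h7
    · obtain ⟨r, rfl⟩ := h2
      have hr : 0 < r := by omega
      have := not_bad_four h (q := r) hr (by push_cast at hxm hmR ⊢; linarith)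
      rwa [show 2 * (2 * r) = 4 * r by ring]
    · obtain ⟨r, rfl⟩ := h3
      have hr : 0 < r := by omega
      have := not_bad_of_mul h (r := r) (k := 3) hr (by norm_num) (by norm_num)
        (by push_cast at hxm hmR ⊢; linarith)
      rwa [show 2 * (3 * r) = 2 * r * 3 by ring]
    · obtain ⟨r, rfl⟩ := h5
      have hr : 0 < r := by omega
      have := not_bad_of_mul h (r := r) (k := 5) hr (by norm_num) (by norm_num)
        (by push_cast at hxm hmR ⊢; linarith)
      rwa [show 2 * (5 * r) = 2 * r * 5 by ring]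
    · obtain ⟨r, rfl⟩ := h7
      have hr : 0 < r := by omega
      have := not_bad_of_mul h (r := r) (k := 7) hr (by norm_num) (by norm_num)
        (by push_cast at hxm hmR ⊢; linarith)
      rwa [show 2 * (7 * r) = 2 * r * 7 by ring]
  · intro r hr _ P hP
    obtain ⟨F, hF, hK, hb⟩ := localConditions_spec P hP
    rw [Finset.mem_Icc] at hF
    have hr0 : 0 < r := by omega
    have hrR : (0 : ℝ) < r := by exact_mod_cast hr0
    have hxr : x₀ ≤ r := by
      have h1 : x₀ ≤ (⌈x₀⌉₊ : ℝ) := Nat.le_ceil x₀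
      have h2 : ((⌈x₀⌉₊ + 1 : ℕ) : ℝ) ≤ r := by exact_mod_cast hr
      push_cast at h2
      linarith
    have hF4 : (4 : ℝ) ≤ F := by exact_mod_cast hF.1
    have hF79 : (F : ℝ) ≤ 79 := by exact_mod_cast hF.2
    have h1 := h ((F : ℝ) * (2 * r)) (by nlinarith) (2 * r) (by push_cast; nlinarith)
      (by push_cast; nlinarith)
    have hsub : (P.1.filter (fun k : ℕ => Bad δ (2 * r * k))).image (fun k => 2 * r * k)
        ⊆ exceptions δ ((F : ℝ) * (2 * r)) (2 * r) := by
      intro n hn
      rw [Finset.mem_image] at hn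
      obtain ⟨k, hk, rfl⟩ := hn
      rw [Finset.mem_filter] at hk
      obtain ⟨hkP, hkb⟩ := hk
      obtain ⟨hk1, hk2⟩ := hK k hkP
      have hk1' : F < 2 * k := by omega
      have hk1R : (F : ℝ) < 2 * k := by exact_mod_cast hk1'
      have hk2R : (k : ℝ) ≤ F := by exact_mod_cast hk2
      have hk0 : 0 < k := by omega
      refine mem_exceptions_of (by push_cast; nlinarith) (by push_cast; nlinarith) (by positivity)
        ?_ (Dvd.intro _ rfl) hkb
      rw [mul_assoc]; exact even_two_mul _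
    have hcard := Finset.card_le_card hsub
    rw [Finset.card_image_of_injective] at hcard
    · have hval : (F : ℝ) * (2 * r) / (8 * ((2 * r : ℕ) : ℝ)) = F / 8 := by
        push_cast
        field_simp
      rw [hval] at h1
      have hcard' : ((P.1.filter (fun k : ℕ => Bad δ (2 * r * k))).card : ℝ)
          ≤ (exceptions δ ((F : ℝ) * (2 * r)) (2 * r)).card := by exact_mod_cast hcard
      have hb' : (F : ℝ) < 8 * ((P.2 : ℝ) + 1) := by exact_mod_cast hb
      have : ((P.1.filter (fun k : ℕ => Bad δ (2 * r * k))).card : ℝ) < (P.2 : ℝ) + 1 := by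
        linarith
      have : (P.1.filter (fun k : ℕ => Bad δ (2 * r * k))).card < P.2 + 1 := by exact_mod_cast this
      omega
    · intro a b hab
      simp only at hab
      exact Nat.eq_of_mul_eq_mul_left (by positivity) hab

open Classical in
theorem card_filter_le_add {A K : Finset ℕ} (B : ℕ → Prop) :
    (A.filter B).card ≤ (K.filter B).card + (A \ K).card := by
  have hsub : A.filter B ⊆ K.filter B ∪ (A \ K) := by
    intro k hk
    rw [Finset.mem_filter] at hk
    rw [Finset.mem_union, Finset.mem_filter, Finset.mem_sdiff]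
    by_cases h : k ∈ K
    · exact Or.inl ⟨h, hk.2⟩
    · exact Or.inr ⟨hk.1, h⟩
  exact (Finset.card_le_card hsub).trans (Finset.card_union_le _ _)

open Classical in
theorem rough_filter_bound {δ : ℝ} {n₀ : ℕ}
    (hloc : ∀ r : ℕ, n₀ ≤ r → Nat.Coprime r 210 → ∀ P ∈ localConditions,
      (P.1.filter (fun k : ℕ => Bad δ (2 * r * k))).card ≤ P.2)
    {r F : ℕ} (hF : 4 ≤ F) (hr : F < 200 → n₀ ≤ r) (hcop : Nat.Coprime r 210) :
    8 * ((rough F).filter (fun k : ℕ => Bad δ (2 * r * k))).card ≤ F := by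
  by_cases hF2 : F < 200
  · have hr' := hr hF2
    rcases rough_cases F (by simp; omega) with h1 | ⟨P, hP, h2⟩ | ⟨_, h3⟩
    · have := Finset.card_filter_le (rough F) (fun k : ℕ => Bad δ (2 * r * k))
      omega
    · have h4 := hloc r hr' hcop P (by rw [localConditions_eq]; exact hP)
      have h5 := card_filter_le_add (A := rough F) (K := P.1) (fun k : ℕ => Bad δ (2 * r * k))
      omega
    · have h4 := hloc (11 * r) (by omega) (Nat.Coprime.mul_left (by norm_num) hcop) ({11, 13}, 1)
        (by simp [localConditions])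
      have h5 := card_filter_le_add (A := rough F) (K := {121, 143})
        (fun k : ℕ => Bad δ (2 * r * k))
      have h6 : (({121, 143} : Finset ℕ).filter (fun k : ℕ => Bad δ (2 * r * k))).card ≤ 1 := by
        have h7 : ({121, 143} : Finset ℕ).filter (fun k : ℕ => Bad δ (2 * r * k))
            = (({11, 13} : Finset ℕ).filter (fun k : ℕ => Bad δ (2 * (11 * r) * k))).image
              (fun k => 11 * k) := by
          ext k
          simp only [Finset.mem_filter, Finset.mem_image, Finset.mem_insert,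
            Finset.mem_singleton]
          constructor
          · rintro ⟨rfl | rfl, hb⟩
            · exact ⟨11, ⟨Or.inl rfl, by rwa [show 2 * (11 * r) * 11 = 2 * r * 121 by ring]⟩,
                by norm_num⟩
            · exact ⟨13, ⟨Or.inr rfl, by rwa [show 2 * (11 * r) * 13 = 2 * r * 143 by ring]⟩,
                by norm_num⟩
          · rintro ⟨j, ⟨rfl | rfl, hb⟩, rfl⟩
            · exact ⟨Or.inl (by norm_num),
                by rwa [show 2 * r * (11 * 11) = 2 * (11 * r) * 11 by ring]⟩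
            · exact ⟨Or.inr (by norm_num),
                by rwa [show 2 * r * (11 * 13) = 2 * (11 * r) * 13 by ring]⟩
        rw [h7]
        exact Finset.card_image_le.trans h4
      omega
  · have h1 := rough_large F (by omega)
    have := Finset.card_filter_le (rough F) (fun k : ℕ => Bad δ (2 * r * k))
    omega

theorem fewExceptions_of_localForm {δ : ℝ} (h : LocalForm δ) : FewExceptions δ := by
  classical
  obtain ⟨n₀, hpt, hloc⟩ := h
  refine ⟨800 * ((n₀ : ℝ) + 1), ?_⟩
  intro x hx q hq1 hqx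
  have hn0 : (0 : ℝ) ≤ n₀ := by positivity
  have hxpos : 0 < x := by linarith
  have hqR : (0 : ℝ) < q := by exact_mod_cast hq1
  -- every exception is `2 m` with `m` coprime to 210
  have hcop : ∀ n ∈ exceptions δ x q, ∀ m, n = 2 * m → Nat.Coprime m 210 := by
    intro n hn m hnm
    rw [mem_exceptions] at hn
    obtain ⟨_, h2, _, _, h5⟩ := hn
    by_contra hc
    refine hpt m ?_ hc (hnm ▸ h5)
    have : x / 2 < 2 * (m : ℝ) := by rw [hnm] at h2; push_cast at h2; exact h2
    have : (n₀ : ℝ) < m := by linarith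
    exact le_of_lt (by exact_mod_cast this)
  rcases Nat.even_or_odd' q with ⟨r, hr | hr⟩
  · -- q = 2 r
    have hr0 : 0 < r := by omega
    have hrR : (0 : ℝ) < r := by exact_mod_cast hr0
    have hqr : (q : ℝ) = 2 * r := by rw [hr]; push_cast; ring
    set F : ℕ := ⌊x / q⌋₊ with hFdef
    have hF4 : 4 ≤ F := by
      apply Nat.le_floor
      rw [le_div_iff₀ hqR]
      push_cast
      linarith
    have hFle : (F : ℝ) ≤ x / q := Nat.floor_le (by positivity)
    by_cases hemp : exceptions δ x q = ∅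
    · rw [hemp]; simp; positivity
    obtain ⟨n1, hn1⟩ := Finset.nonempty_iff_ne_empty.2 hemp
    have hrcop : Nat.Coprime r 210 := by
      have h1 := mem_exceptions.1 hn1
      obtain ⟨_, _, _, ⟨j, hj⟩, _⟩ := h1
      have := hcop n1 hn1 (r * j) (by rw [hj, hr]; ring)
      exact Nat.Coprime.coprime_mul_right this
    have hsub : exceptions δ x q ⊆
        ((rough F).filter (fun k : ℕ => Bad δ (2 * r * k))).image (fun k => 2 * r * k) := by
      intro n hn
      have hn' := mem_exceptions.1 hn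
      obtain ⟨⟨hn1, hn2⟩, hn3, hn4, ⟨k, hk⟩, hn5⟩ := hn'
      have hnk : n = 2 * r * k := by rw [hk, hr]
      rw [Finset.mem_image]
      refine ⟨k, ?_, hnk.symm⟩
      rw [Finset.mem_filter]
      refine ⟨?_, hnk ▸ hn5⟩
      have hnx : (n : ℝ) ≤ x := (Nat.le_floor_iff hxpos.le).1 hn2
      have hnR : (n : ℝ) = q * k := by rw [hk]; push_cast; ring
      apply mem_rough_of_real
      · rw [div_div, div_lt_iff₀ (by positivity)]
        rw [hnR] at hn3
        linarith
      · rw [le_div_iff₀ hqR]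
        rw [hnR] at hnx
        linarith
      · have := hcop n hn (r * k) (by rw [hnk]; ring)
        exact Nat.Coprime.coprime_mul_left this
    have hc1 : (exceptions δ x q).card
        ≤ ((rough F).filter (fun k : ℕ => Bad δ (2 * r * k))).card :=
      (Finset.card_le_card hsub).trans Finset.card_image_le
    have hc2 := rough_filter_bound hloc (r := r) (F := F) hF4 (by
      intro hF200
      have h1 : x / q < F + 1 := Nat.lt_floor_add_one _
      have h2 : (F : ℝ) + 1 ≤ 200 := by exact_mod_cast hF200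
      have h3 : x / q < 200 := by linarith
      rw [div_lt_iff₀ hqR] at h3
      have h4 : (n₀ : ℝ) < r := by rw [hqr] at h3; linarith
      exact le_of_lt (by exact_mod_cast h4)) hrcop
    have hc3 : 8 * (exceptions δ x q).card ≤ F := by omega
    have hc4 : 8 * ((exceptions δ x q).card : ℝ) ≤ F := by exact_mod_cast hc3
    have hc5 : 8 * ((exceptions δ x q).card : ℝ) ≤ x / q := hc4.trans hFle
    rw [mul_comm (8 : ℝ) (q : ℝ), ← div_div, le_div_iff₀ (by norm_num)]
    linarith
  · -- q odd
    set F : ℕ := ⌊x / (2 * q)⌋₊ with hFdef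
    have hF2 : 2 ≤ F := by
      apply Nat.le_floor
      rw [le_div_iff₀ (by positivity)]
      push_cast
      linarith
    have hFle : (F : ℝ) ≤ x / (2 * q) := Nat.floor_le (by positivity)
    have hsub : exceptions δ x q ⊆ (rough F).image (fun k => 2 * q * k) := by
      intro n hn
      have hn' := mem_exceptions.1 hn
      obtain ⟨⟨hn1, hn2⟩, hn3, hn4, hn5, hn6⟩ := hn'
      have h2q : 2 * q ∣ n := by
        apply Nat.Coprime.mul_dvd_of_dvd_of_dvd _ hn4.two_dvd hn5
        rw [hr]
        simp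
      obtain ⟨k, hk⟩ := h2q
      rw [Finset.mem_image]
      refine ⟨k, ?_, hk.symm⟩
      have hnx : (n : ℝ) ≤ x := (Nat.le_floor_iff hxpos.le).1 hn2
      have hnR : (n : ℝ) = 2 * q * k := by rw [hk]; push_cast; ring
      apply mem_rough_of_real
      · rw [div_div, div_lt_iff₀ (by positivity)]
        rw [hnR] at hn3
        linarith
      · rw [le_div_iff₀ (by positivity)]
        rw [hnR] at hnx
        linarith
      · have := hcop n hn (q * k) (by rw [hk]; ring)
        exact Nat.Coprime.coprime_mul_left this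
    have hc1 : (exceptions δ x q).card ≤ (rough F).card :=
      (Finset.card_le_card hsub).trans Finset.card_image_le
    have hc2 := rough_quarter F hF2
    have hc3 : 4 * (exceptions δ x q).card ≤ F := by omega
    have hc4 : 4 * ((exceptions δ x q).card : ℝ) ≤ F := by exact_mod_cast hc3
    have hc5 : 4 * ((exceptions δ x q).card : ℝ) ≤ x / (2 * q) := hc4.trans hFle
    have hc6 : x / (8 * (q : ℝ)) = x / (2 * q) / 4 := by
      field_simp
      norm_num
    rw [hc6, le_div_iff₀ (by norm_num)]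
    linarith

/-- For every `δ`: Q1 with constant `δ`, its restriction to `x / 79 ≤ q ≤ x / 4`, and the local form
are equivalent. -/
theorem result (δ : ℝ) :
    List.TFAE [FewExceptions δ, FewExceptionsLargeModuli δ, LocalForm δ] := by
  tfae_have 1 → 2 := by
    rintro ⟨x₀, h⟩
    refine ⟨max x₀ 1, fun x hx q hq1 hq2 => h x (le_trans (le_max_left _ _) hx) q ?_ hq2⟩
    have hx1 : (1 : ℝ) ≤ x := le_trans (le_max_right _ _) hx
    have : (0 : ℝ) < q := by
      have : (0 : ℝ) < x / 79 := by positivity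
      linarith
    exact_mod_cast this
  tfae_have 2 → 3 := localForm_of_large
  tfae_have 3 → 1 := fewExceptions_of_localForm
  tfae_finish

end Pool.Agent.Results.MP_92f640_nt.ExactReduction
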