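import Pool.Agent.Work.MP_92f640_nt.HLA.FinalG

/-!
# The asymptotic formula of Hardy and Littlewood for almost all multiples of `q ≤ x^(4/5-ε)`
-/

namespace Pool.Agent.Results.MP_92f640_nt.HardyLittlewood

open Pool.Agent.Work.MP_92f640_nt

/-- `2 C₂ ∏_{p ∣ n, p > 2} (p-1)/(p-2)` -/
noncomputable def singularFactor (C₂ : ℝ) (n : ℕ) : ℝ :=
  2 * C₂ * ∏ p ∈ n.primeFactors.filter (fun p => 2 < p), (((p : ℝ) - 1) / ((p : ℝ) - 2))

/-- `∑ log p₁ log p₂` over the ordered pairs of primes with `p₁ + p₂ = n` -/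
noncomputable def weightedCount (n : ℕ) : ℝ :=
  ∑ p ∈ (Finset.range (n + 1)).filter (fun p : ℕ => p.Prime ∧ (n - p).Prime),
    Real.log (p : ℝ) * Real.log ((n - p : ℕ) : ℝ)

/-- the conjectured asymptotic formulas, with the relative error `κ` for `g(n)` and the error
`n / log^K n` for the weighted count -/
def Asymptotic (C₂ κ : ℝ) (K n : ℕ) : Prop :=
  |weightedCount n - singularFactor C₂ n * n| ≤ n / (Real.log n) ^ K ∧
    |(goldbachCount n : ℝ) - singularFactor C₂ n * n / (Real.log n) ^ 2| ≤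
      κ * (singularFactor C₂ n * n / (Real.log n) ^ 2)

open Classical in
/-- the even multiples `n` of `q` in `(x/2, x]` for which a formula fails -/
noncomputable def failures (C₂ κ x : ℝ) (K q : ℕ) : Finset ℕ :=
  (Finset.Icc 1 ⌊x⌋₊).filter (fun n : ℕ => x / 2 < (n : ℝ) ∧ Even n ∧ q ∣ n ∧ ¬ Asymptotic C₂ κ K n)

/-- Let `C₂ = ∏_{p > 2} (1 - 1/(p-1)²)`. For all `ε, η, κ > 0` and `K` there is `C` such that for every `A` and
all large `x` there are a set `B` of at most `(log x)^C` integers and an integer `r₁` dividing four times its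
radical, such that every `b ∈ B` has radical `> (log x)^A`, even `> exp((log x)^(1-η))` unless `b = r₁/g` with
`g ≤ (log x)^C`, and for every `q ≤ x^(4/5-ε)` without divisor in `B` all but at most `x/(q (log x)^K)` even
multiples `n` of `q` in `(x/2, x]` satisfy both formulas. -/
theorem result : ∃ C₂ : ℝ, HasProd (fun p : {p : ℕ // p.Prime ∧ 2 < p} =>
      1 - 1 / (((p : ℕ) : ℝ) - 1) ^ 2) C₂ ∧
    ∀ ε η κ : ℝ, 0 < ε → 0 < η → 0 < κ → ∀ K : ℕ, ∃ C : ℕ, ∀ A : ℕ, ∃ x₀ : ℝ, ∀ x : ℝ,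
    x₀ ≤ x → ∃ (B : Finset ℕ) (r₁ : ℕ), (B.card : ℝ) ≤ (Real.log x) ^ C ∧
      r₁ ∣ 4 * ∏ p ∈ r₁.primeFactors, p ∧
      (∀ b ∈ B, (Real.log x) ^ A < ((∏ p ∈ b.primeFactors, p : ℕ) : ℝ) ∧
        (Real.exp ((Real.log x) ^ (1 - η)) < ((∏ p ∈ b.primeFactors, p : ℕ) : ℝ) ∨
          ∃ g : ℕ, (g : ℝ) ≤ (Real.log x) ^ C ∧ b * g = r₁)) ∧
      ∀ q : ℕ, 1 ≤ q → (q : ℝ) ≤ x ^ (4 / 5 - ε) → (∀ b ∈ B, ¬ b ∣ q) →
        ((failures C₂ κ x K q).card : ℝ) ≤ x / (q * (Real.log x) ^ K) := by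
  obtain ⟨C₂, hC₂⟩ := Pool.Agent.HLA.tw_hasProd
  refine ⟨C₂, hC₂, fun ε η κ hε hη hκ K => ?_⟩
  obtain ⟨C, hC⟩ := Pool.Agent.HLA.final_form C₂ hC₂ ε η κ hε hη hκ K
  refine ⟨C, fun A => ?_⟩
  obtain ⟨x₀, hx₀⟩ := hC A
  refine ⟨max x₀ 0, fun x hx => ?_⟩
  obtain ⟨B, r₁, hB1, hB2, hB3, hB4⟩ := hx₀ x ((le_max_left _ _).trans hx)
  have hx0 : 0 ≤ x := (le_max_right _ _).trans hx
  refine ⟨B, r₁, hB1, hB2, hB3, fun q hq hqx hqB => hB4 q hq hqx hqB _ fun n hn => ?_⟩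
  classical
  unfold failures at hn
  rw [Finset.mem_filter, Finset.mem_Icc] at hn
  obtain ⟨⟨h1, h2⟩, h3, h4, h5, h6⟩ := hn
  exact ⟨h1, h3, (Nat.le_floor_iff hx0).1 h2, h4, h5, h4, h6⟩

end Pool.Agent.Results.MP_92f640_nt.HardyLittlewood
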