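import Mathlib
import Pool.Agent.Work.MP_92f640_nt.Defs
import Pool.Agent.Work.MP_92f640_nt.Repulse

/-!
# Q1 for small moduli implies `L(1, χ) ≥ c / log q`

for all real characters `χ` modulo `q` that are odd, and for all real primitive characters `χ`
modulo `q` (of either parity) with `gcd(q, 6) > 1`.
-/

namespace Pool.Agent.Results.MP_92f640_nt.LOneBound

open Pool.Agent.Work.MP_92f640_nt

/-- Let `ε > 0` and assume the assertion of Q1 for the moduli `q ≤ x ^ ε` only. Then there are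
`c > 0` and `q₀` such that `L(1, χ) ≥ c / log q` for every real character `χ` modulo `q ≥ q₀` which
is odd, or which is primitive (even or odd) with `gcd(q, 6) > 1`. -/
theorem result {ε : ℝ} (hε : 0 < ε) (h : Q1UpTo ε) :
    ∃ c : ℝ, 0 < c ∧ ∃ q₀ : ℕ, ∀ (q : ℕ) [NeZero q] (χ : DirichletCharacter ℂ q), q₀ ≤ q →
      χ.IsQuadratic → (χ.Odd ∨ (χ.IsPrimitive ∧ ¬ Nat.Coprime q 6)) →
      ∃ L : ℝ, DirichletCharacter.LFunction χ 1 = (L : ℂ) ∧ c / Real.log q ≤ L := by
  obtain ⟨δ, hδ, x₀, H⟩ := h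
  obtain ⟨c, hc, q₀, hq₀⟩ := main_bounds hδ hε H
  refine ⟨c, hc, q₀, ?_⟩
  intro q _ χ hq hquad hcond
  have hcond' := cond_of_not_coprime_six χ hquad hcond
  have hne := ne_one_of_cond χ hcond'
  exact ⟨_, LFunction_one_real χ hquad hne, (hq₀ q hq χ hquad hcond').1⟩

end Pool.Agent.Results.MP_92f640_nt.LOneBound
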