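import Pool.Agent.Work.MP_92f640_nt.PW.LevelP

/-!
# Q1's inequality up to x^(10/11-ε): all exceptional divisors have a large radical
-/

namespace Pool.Agent.Results.MP_92f640_nt.SmallRadical

open Pool.Agent.Work.MP_92f640_nt

/-- For all `ε, η > 0` and `K` there is `C` such that for every `A` and all large `x` there are a set `B` of
at most `(log x)^C` integers and an integer `r₁` dividing four times its radical, such that every `b ∈ B`
has radical `> (log x)^A`, even `> exp((log x)^(1-η))` unless `b = r₁/g` with `g ≤ (log x)^C`, and for every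
`q ≤ x^(10/11-ε)` without divisor in `B` all but at most `x/(q (log x)^K)` even multiples `n` of `q` in
`(x/2, x]` have `g(n) ≥ (1/80) n/log² n`. -/
theorem result (ε η : ℝ) (hε : 0 < ε) (hη : 0 < η) (K : ℕ) : ∃ C : ℕ, ∀ A : ℕ, ∃ x₀ : ℝ, ∀ x : ℝ,
    x₀ ≤ x → ∃ (B : Finset ℕ) (r₁ : ℕ), (B.card : ℝ) ≤ (Real.log x) ^ C ∧
      r₁ ∣ 4 * ∏ p ∈ r₁.primeFactors, p ∧
      (∀ b ∈ B, (Real.log x) ^ A < ((∏ p ∈ b.primeFactors, p : ℕ) : ℝ) ∧
        (Real.exp ((Real.log x) ^ (1 - η)) < ((∏ p ∈ b.primeFactors, p : ℕ) : ℝ) ∨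
          ∃ g : ℕ, (g : ℝ) ≤ (Real.log x) ^ C ∧ b * g = r₁)) ∧
      ∀ q : ℕ, 1 ≤ q → (q : ℝ) ≤ x ^ (10 / 11 - ε) → (∀ b ∈ B, ¬ b ∣ q) →
        ((exceptions (1 / 80) x q).card : ℝ) ≤ x / (q * (Real.log x) ^ K) := by
  have h := Pool.Agent.PW.level_B (1 / 20) 4 (by norm_num) (by norm_num) Pool.Agent.HN.vlowN
    ε η hε hη K
  rw [show (1 / 80 : ℝ) = 1 / 20 / 4 by norm_num]
  exact h

end Pool.Agent.Results.MP_92f640_nt.SmallRadical
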